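import Pool.Agent.helper968_onebased.Final

/-!
A one-based NSOP₁ theory that fails the existence axiom (negative answer to Q1).

The definitions used in the statement are in `Pool.Agent.helper968_onebased.Defs` (namespace `OBF`:
imaginary elements, Kim-forking for imaginary elements, one-basedness),
`Pool.Agent.helper968_exist.Defs` (namespace `EXA`: dividing, forking) and
`Pool.Agent.helper968_kim.Defs` (namespace `SKF`).

The theory. The structures consist of vertices and points (predicate `P`). The vertices carry a
graph, and every point `x` chooses exactly two neighbours of each vertex `z` (`S(x, z, w)`), such
that for each edge `{z, w}` it has chosen `w` at `z` or `z` at `w`. The graph is sparse: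
`δ(X) = 2|X| - |E(X)|` satisfies `4|X| ≤ 3^{δ(X)}` for nonempty finite `X`. A set `A` is closed in
the sense of the graph if `δ(Y ∩ A) < δ(Y)` for all finite `Y ⊄ A`, and closed if moreover it
contains the values of `S` on `A`. The finite structures amalgamate over sets which are closed (in
the smaller structure only in the sense of the graph), and there is a countable generic structure;
its extension property is first order because the closure of a finite set in the sense of the graph
is finite of bounded size. In a countably saturated model of its theory `T`, isomorphisms of
countable closed sets preserve all formulas.

Forking. If `{u, v}` is a closed edge, then `S(x; u, v)` divides over `∅`: there is an indiscernible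
sequence `(w_i)` of neighbours of `u` with `w_0 = v`, and `x` chooses only two neighbours of `u`. As
`P(x)` implies `S(x; u, v) ∨ S(x; v, u)`, the type over `∅` of a point forks over `∅`.

One-basedness. Let `M` be closed and contain a point `x0`. If `A`, `B` are closed and `A ∩ B = M`,
there is no edge between `A \ M` and `B \ M`, since `x0` has chosen one of its endpoints from the
other. Three closed sets glued along closed sets containing `x0` always amalgamate: let every point
`x` act as `x0` where it is not defined yet; the growth condition holds since the edges are directed
by `x0`. So the independence theorem over models holds for the relation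
`acl(A) ∩ acl(B) = M`. Hence `T` is NSOP₁ and Kim-independence over models is this relation, first
for real tuples; for imaginary elements one chooses suitable representatives by a version of
P. M. Neumann's lemma.
-/

namespace Pool.Agent.Results.MP_568911_lc.OneBasedNsop1ExistenceFails

open FirstOrder FirstOrder.Language Cardinal SKF EXA OBF

/-- There is a complete NSOP₁ theory `T`, with a monster model, such that in every monster model `U`
of `T` one-basedness holds and some complete type over `∅` in one variable forks over `∅`. -/
theorem result : ∃ (L : FirstOrder.Language.{0, 0}) (T : L.Theory), T.IsComplete ∧ NSOP1 T ∧
    (∃ (κ : Cardinal.{0}) (U : Type) (_ : L.Structure U), IsMonster T κ U) ∧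
    ∀ (κ : Cardinal.{0}) (U : Type) [L.Structure U], IsMonster T κ U →
      OneBasedIn L κ U ∧
      ∃ p : Set (Fml L 1 U), IsTypeOver (∅ : Set U) p ∧ ∃ ψ ∈ p, Forks (∅ : Set U) ψ :=
  H968G.main

end Pool.Agent.Results.MP_568911_lc.OneBasedNsop1ExistenceFails
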